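import Mathlib

/-!
# Biased walks: expectation operator and the martingales of the unvisited vertices
-/

open Finset

namespace Pool.Agent.Q210.BW

noncomputable section

variable {V : Type} [Fintype V]

open Classical in
/-- The set of neighbours of a vertex. -/
def nb (G : SimpleGraph V) (x : V) : Finset V := Finset.univ.filter fun y => G.Adj x y

/-- Expectation of `f` (a function of the current vertex and of the list of earlier vertices, most
recent first) after `t` steps of the `ε`-biased walk with strategy `σ`, when the current vertex is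
`x` and the list of earlier vertices is `h`. -/
def Ex (G : SimpleGraph V) (ε : ℝ) (σ : V → List V → V) (f : V → List V → ℝ) :
    ℕ → V → List V → ℝ
  | 0, x, h => f x h
  | t + 1, x, h => (1 - ε) * ((∑ y ∈ nb G x, Ex G ε σ f t y (x :: h)) / ((nb G x).card : ℝ)) +
      ε * Ex G ε σ f t (σ x h) (x :: h)

variable (G : SimpleGraph V) (ε : ℝ) (σ : V → List V → V)

/-- One step. -/
def A (x : V) (h : List V) (g : V → ℝ) : ℝ :=
  (1 - ε) * ((∑ y ∈ nb G x, g y) / ((nb G x).card : ℝ)) + ε * g (σ x h)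

theorem Ex_succ (f : V → List V → ℝ) (t : ℕ) (x : V) (h : List V) :
    Ex G ε σ f (t + 1) x h = A G ε σ x h fun y => Ex G ε σ f t y (x :: h) := rfl

variable {G ε}

theorem A_mono (h0 : 0 ≤ ε) (h1 : ε ≤ 1) {x : V} {h : List V} {g g' : V → ℝ}
    (hg : ∀ y, g y ≤ g' y) : A G ε σ x h g ≤ A G ε σ x h g' := by
  unfold A
  have h2 : (∑ y ∈ nb G x, g y) / ((nb G x).card : ℝ) ≤
      (∑ y ∈ nb G x, g' y) / ((nb G x).card : ℝ) :=
    div_le_div_of_nonneg_right (Finset.sum_le_sum fun y _ => hg y) (Nat.cast_nonneg _)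
  have h3 := mul_le_mul_of_nonneg_left h2 (sub_nonneg.mpr h1)
  have h4 := mul_le_mul_of_nonneg_left (hg (σ x h)) h0
  linarith

theorem A_add (x : V) (h : List V) (g g' : V → ℝ) :
    A G ε σ x h (fun y => g y + g' y) = A G ε σ x h g + A G ε σ x h g' := by
  unfold A
  rw [Finset.sum_add_distrib, add_div]
  ring

theorem A_mul (x : V) (h : List V) (c : ℝ) (g : V → ℝ) :
    A G ε σ x h (fun y => c * g y) = c * A G ε σ x h g := by
  unfold A
  rw [← Finset.mul_sum, mul_div_assoc]
  ring

theorem A_const {x : V} (hx : (nb G x).card ≠ 0) (h : List V) (c : ℝ) :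
    A G ε σ x h (fun _ => c) = c := by
  unfold A
  rw [Finset.sum_const, nsmul_eq_mul]
  have : ((nb G x).card : ℝ) ≠ 0 := by exact_mod_cast hx
  field_simp
  ring

theorem A_sum {ι : Type} (s : Finset ι) (x : V) (h : List V) (g : ι → V → ℝ) :
    A G ε σ x h (fun y => ∑ i ∈ s, g i y) = ∑ i ∈ s, A G ε σ x h (g i) := by
  classical
  induction s using Finset.induction_on with
  | empty =>
    simp only [Finset.sum_empty]
    unfold A
    simp
  | insert j s hj ih =>
    simp only [Finset.sum_insert hj]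
    rw [A_add, ih]

/-- Comparison with a function of bounded drift. -/
theorem Ex_le (h0 : 0 ≤ ε) (h1 : ε ≤ 1) (hd : ∀ x, (nb G x).card ≠ 0) {f : V → List V → ℝ} {c : ℝ}
    (hf : ∀ x h, A G ε σ x h (fun y => f y (x :: h)) ≤ f x h + c) (t : ℕ) :
    ∀ x h, Ex G ε σ f t x h ≤ f x h + t * c := by
  induction t with
  | zero => intro x h; simp [Ex]
  | succ t ih =>
    intro x h
    rw [Ex_succ]
    calc A G ε σ x h (fun y => Ex G ε σ f t y (x :: h))
        ≤ A G ε σ x h (fun y => f y (x :: h) + t * c) := A_mono σ h0 h1 fun y => ih y (x :: h)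
      _ = A G ε σ x h (fun y => f y (x :: h)) + t * c := by
          rw [A_add, A_const σ (hd x)]
      _ ≤ f x h + ((t + 1 : ℕ) : ℝ) * c := by
          push_cast
          linarith [hf x h]

theorem Ex_mono (h0 : 0 ≤ ε) (h1 : ε ≤ 1) {f f' : V → List V → ℝ} (t : ℕ) :
    ∀ x h, (∀ y l, l.length = h.length + t → f y l ≤ f' y l) →
      Ex G ε σ f t x h ≤ Ex G ε σ f' t x h := by
  induction t with
  | zero => intro x h hf; exact hf x h rfl
  | succ t ih =>
    intro x h hf
    rw [Ex_succ, Ex_succ]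
    refine A_mono σ h0 h1 fun y => ih y (x :: h) fun z l hl => hf z l ?_
    rw [hl, List.length_cons]
    ring

theorem Ex_add (f f' : V → List V → ℝ) (t : ℕ) :
    ∀ x h, Ex G ε σ (fun y l => f y l + f' y l) t x h = Ex G ε σ f t x h + Ex G ε σ f' t x h := by
  induction t with
  | zero => intro x h; rfl
  | succ t ih =>
    intro x h
    rw [Ex_succ, Ex_succ, Ex_succ, ← A_add]
    congr 1
    funext y
    exact ih y (x :: h)

theorem Ex_mul (c : ℝ) (f : V → List V → ℝ) (t : ℕ) :
    ∀ x h, Ex G ε σ (fun y l => c * f y l) t x h = c * Ex G ε σ f t x h := by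
  induction t with
  | zero => intro x h; rfl
  | succ t ih =>
    intro x h
    rw [Ex_succ, Ex_succ, ← A_mul]
    congr 1
    funext y
    exact ih y (x :: h)

theorem Ex_const (hd : ∀ x, (nb G x).card ≠ 0) (c : ℝ) (t : ℕ) :
    ∀ x h, Ex G ε σ (fun _ _ => c) t x h = c := by
  induction t with
  | zero => intro x h; rfl
  | succ t ih =>
    intro x h
    rw [Ex_succ]
    simp_rw [ih]
    exact A_const σ (hd x) h c

/-! ### Hazards -/

variable (G ε)

open Classical in
/-- The probability that the next vertex is `v`. -/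
def p (v x : V) (h : List V) : ℝ :=
  (1 - ε) * ((if G.Adj x v then 1 else 0) / ((nb G x).card : ℝ)) + ε * (if σ x h = v then 1 else 0)

open Classical in
theorem A_ind (v x : V) (h : List V) :
    A G ε σ x h (fun y => if y = v then 1 else 0) = p G ε σ v x h := by
  unfold A p
  congr 3
  rw [Finset.sum_ite_eq']
  unfold nb
  simp

open Classical in
theorem p_sum {x : V} (hx : (nb G x).card ≠ 0) (h : List V) : ∑ v, p G ε σ v x h = 1 := by
  simp_rw [← A_ind]
  rw [← A_sum]
  have : (fun y => ∑ i : V, if y = i then (1 : ℝ) else 0) = fun _ : V => (1 : ℝ) := by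
    funext y
    simp
  rw [this]
  exact A_const σ hx h 1

variable {G ε}

theorem p_nonneg (h0 : 0 ≤ ε) (h1 : ε ≤ 1) (v x : V) (h : List V) : 0 ≤ p G ε σ v x h := by
  unfold p
  have : 0 ≤ 1 - ε := by linarith
  split_ifs <;> positivity

open Classical in
theorem p_le (h0 : 0 ≤ ε) (_h1 : ε ≤ 1) (v x : V) (h : List V) :
    p G ε σ v x h ≤ 1 / ((nb G x).card : ℝ) + ε := by
  unfold p
  have h2 : (0 : ℝ) ≤ 1 / ((nb G x).card : ℝ) := by positivity
  have h3 : (if G.Adj x v then (1 : ℝ) else 0) / ((nb G x).card : ℝ) ≤ 1 / ((nb G x).card : ℝ) := by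
    refine div_le_div_of_nonneg_right ?_ (Nat.cast_nonneg _)
    split_ifs <;> norm_num
  have h4 : (0 : ℝ) ≤ (if G.Adj x v then (1 : ℝ) else 0) / ((nb G x).card : ℝ) := by
    split_ifs <;> positivity
  have h5 : (if σ x h = v then (1 : ℝ) else 0) ≤ 1 := by split_ifs <;> norm_num
  nlinarith

variable (G ε)

open Classical in
/-- The martingale attached to the vertex `v`, frozen when it reaches the level `L`. -/
def w (L : ℝ) (v : V) : V → List V → ℝ
  | x, [] => if v = x then 0 else 1
  | y, x :: h => if L ≤ w L v x h then w L v x h else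
      if y = v then 0 else w L v x h / (1 - p G ε σ v x h)

/-- The accumulated hazard. -/
def K (v : V) : V → List V → ℝ
  | _, [] => 0
  | _, x :: h => K v x h + p G ε σ v x h

/-- The standing assumptions. -/
structure Std (G : SimpleGraph V) (ε L : ℝ) (d : ℕ) : Prop where
  h0 : 0 ≤ ε
  reg : ∀ x, (nb G x).card = d
  dpos : d ≠ 0
  small : 1 / (d : ℝ) + ε ≤ 1 / 2
  L1 : 1 ≤ L

variable {G ε}

theorem Std.h1 {L : ℝ} {d : ℕ} (H : Std G ε L d) : ε ≤ 1 := by
  have := H.small
  have : (0 : ℝ) ≤ 1 / (d : ℝ) := by positivity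
  linarith

theorem Std.ne {L : ℝ} {d : ℕ} (H : Std G ε L d) (x : V) : (nb G x).card ≠ 0 := by
  rw [H.reg]; exact H.dpos

theorem Std.p_half {L : ℝ} {d : ℕ} (H : Std G ε L d) (v x : V) (h : List V) :
    p G ε σ v x h ≤ 1 / 2 := by
  have := p_le (G := G) σ H.h0 H.h1 v x h
  rw [H.reg] at this
  exact this.trans H.small

theorem w_bounds {L : ℝ} {d : ℕ} (H : Std G ε L d) (v : V) : ∀ (h : List V) (x : V),
    0 ≤ w G ε σ L v x h ∧ w G ε σ L v x h ≤ 2 * L := by
  have hL := H.L1
  intro h
  induction h with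
  | nil =>
    intro x
    unfold w
    split_ifs <;> constructor <;> linarith
  | cons x h ih =>
    intro y
    have hi := ih x
    have hp0 := p_nonneg (G := G) σ H.h0 H.h1 v x h
    have hp1 := H.p_half σ v x h
    unfold w
    split_ifs with h1 h2
    · exact hi
    · constructor <;> linarith
    · push Not at h1
      constructor
      · exact div_nonneg hi.1 (by linarith)
      · rw [div_le_iff₀ (by linarith)]
        nlinarith

/-- One-step expectation of `w`. -/
theorem w_mart {L : ℝ} {d : ℕ} (H : Std G ε L d) (v x : V) (h : List V) :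
    A G ε σ x h (fun y => w G ε σ L v y (x :: h)) = w G ε σ L v x h := by
  classical
  have hp1 := H.p_half σ v x h
  by_cases hf : L ≤ w G ε σ L v x h
  · have : (fun y => w G ε σ L v y (x :: h)) = fun _ => w G ε σ L v x h := by
      funext y
      rw [w, if_pos hf]
    rw [this]
    exact A_const σ (H.ne x) h _
  · have : (fun y => w G ε σ L v y (x :: h)) = fun y =>
        w G ε σ L v x h / (1 - p G ε σ v x h) +
          (-(w G ε σ L v x h / (1 - p G ε σ v x h))) * (if y = v then 1 else 0) := by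
      funext y
      rw [w, if_neg hf]
      split_ifs <;> ring
    rw [this, A_add, A_const σ (H.ne x), A_mul, A_ind]
    have : 1 - p G ε σ v x h ≠ 0 := by linarith
    field_simp
    ring

/-- The increments of the sum are bounded. -/
theorem sum_incr {L : ℝ} {d : ℕ} (H : Std G ε L d) (x y : V) (h : List V) :
    |∑ v, w G ε σ L v y (x :: h) - ∑ v, w G ε σ L v x h| ≤ 2 * L := by
  classical
  have hL := H.L1
  rw [← Finset.sum_sub_distrib]
  have hup : ∀ v, w G ε σ L v y (x :: h) - w G ε σ L v x h ≤ 2 * L * p G ε σ v x h := by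
    intro v
    have hi := w_bounds σ H v h x
    have hp0 := p_nonneg (G := G) σ H.h0 H.h1 v x h
    have hp1 := H.p_half σ v x h
    have h3 : 0 ≤ 2 * L * p G ε σ v x h := by positivity
    rw [w]
    split_ifs with h1 h2
    · linarith
    · linarith
    · push Not at h1
      have h4 : w G ε σ L v x h / (1 - p G ε σ v x h) ≤
          w G ε σ L v x h + 2 * L * p G ε σ v x h := by
        rw [div_le_iff₀ (by linarith)]
        nlinarith [mul_nonneg hp0 (sub_nonneg.mpr hp1), mul_nonneg hi.1 hp0]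
      linarith
  have hlow : ∀ v, (if v = y then -L else 0) ≤ w G ε σ L v y (x :: h) - w G ε σ L v x h := by
    intro v
    have hi := w_bounds σ H v h x
    have hp0 := p_nonneg (G := G) σ H.h0 H.h1 v x h
    have hp1 := H.p_half σ v x h
    rw [w]
    by_cases h1 : L ≤ w G ε σ L v x h
    · rw [if_pos h1]
      split_ifs <;> linarith
    · rw [if_neg h1]
      push Not at h1
      by_cases h2 : y = v
      · rw [if_pos h2, if_pos h2.symm]; linarith
      · rw [if_neg h2, if_neg (Ne.symm h2)]
        have h4 : w G ε σ L v x h ≤ w G ε σ L v x h / (1 - p G ε σ v x h) := by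
          rw [le_div_iff₀ (by linarith)]
          nlinarith [mul_nonneg hi.1 hp0]
        linarith
  rw [abs_le]
  constructor
  · have h5 := Finset.sum_le_sum fun v (_ : v ∈ (Finset.univ : Finset V)) => hlow v
    rw [Finset.sum_ite_eq' Finset.univ y] at h5
    simp only [Finset.mem_univ, if_true] at h5
    linarith
  · have h5 := Finset.sum_le_sum fun v (_ : v ∈ (Finset.univ : Finset V)) => hup v
    rw [← Finset.mul_sum, p_sum G ε σ (H.ne x)] at h5
    linarith

/-- Second moment. -/
theorem sq_drift {L : ℝ} {d : ℕ} (H : Std G ε L d) (a : ℝ) (x : V) (h : List V) :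
    A G ε σ x h (fun y => (∑ v, w G ε σ L v y (x :: h) - a) ^ 2) ≤
      (∑ v, w G ε σ L v x h - a) ^ 2 + 4 * L ^ 2 := by
  have hm : A G ε σ x h (fun y => ∑ v, w G ε σ L v y (x :: h)) = ∑ v, w G ε σ L v x h := by
    rw [A_sum]
    exact Finset.sum_congr rfl fun v _ => w_mart σ H v x h
  set S := ∑ v, w G ε σ L v x h with hS
  have h1 : ∀ y, (∑ v, w G ε σ L v y (x :: h) - a) ^ 2 ≤
      ((S - a) ^ 2 - 2 * (S - a) * S + 4 * L ^ 2) +
        (2 * (S - a)) * ∑ v, w G ε σ L v y (x :: h) := by
    intro y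
    have h2 := sum_incr σ H x y h
    rw [← hS] at h2
    have h3 : (∑ v, w G ε σ L v y (x :: h) - S) ^ 2 ≤ (2 * L) ^ 2 := by
      rw [← sq_abs]
      exact pow_le_pow_left₀ (abs_nonneg _) h2 2
    nlinarith
  refine (A_mono σ H.h0 H.h1 h1).trans ?_
  rw [A_add, A_const σ (H.ne x), A_mul, hm]
  apply le_of_eq
  ring

theorem one_sub_sum_le_prod {ι : Type} [DecidableEq ι] (s : Finset ι) (q : ι → ℝ)
    (h0 : ∀ i, 0 ≤ q i) (h1 : ∀ i, q i ≤ 1) : 1 - ∑ i ∈ s, q i ≤ ∏ i ∈ s, (1 - q i) := by
  induction s using Finset.induction_on with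
  | empty => simp
  | insert j s hj ih =>
    rw [Finset.sum_insert hj, Finset.prod_insert hj]
    have h2 : 0 ≤ ∏ i ∈ s, (1 - q i) := Finset.prod_nonneg fun i _ => by linarith [h1 i]
    have h3 : ∏ i ∈ s, (1 - q i) ≤ 1 := Finset.prod_le_one (fun i _ => by linarith [h1 i])
      fun i _ => by linarith [h0 i]
    have h4 : q j * ∏ i ∈ s, (1 - q i) ≤ q j := mul_le_of_le_one_right (h0 j) h3
    nlinarith

/-- Products of the `w`'s are supermartingales. -/
theorem prod_drift {L : ℝ} {d : ℕ} (H : Std G ε L d) (B : Finset V) (x : V) (h : List V) :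
    A G ε σ x h (fun y => ∏ v ∈ B, w G ε σ L v y (x :: h)) ≤ ∏ v ∈ B, w G ε σ L v x h := by
  classical
  set U := B.filter fun v => ¬ L ≤ w G ε σ L v x h with hU
  set Fz := B.filter fun v => L ≤ w G ε σ L v x h with hFz
  have hsplit : ∀ g : V → ℝ, ∏ v ∈ B, g v = (∏ v ∈ Fz, g v) * ∏ v ∈ U, g v := fun g =>
    (Finset.prod_filter_mul_prod_filter_not B (fun v => L ≤ w G ε σ L v x h) g).symm
  have hw0 : ∀ v, 0 ≤ w G ε σ L v x h := fun v => (w_bounds σ H v h x).1
  set R := (∏ v ∈ Fz, w G ε σ L v x h) * ∏ v ∈ U, (w G ε σ L v x h / (1 - p G ε σ v x h)) with hR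
  have hR0 : 0 ≤ R := by
    refine mul_nonneg (Finset.prod_nonneg fun v _ => hw0 v) (Finset.prod_nonneg fun v _ => ?_)
    exact div_nonneg (hw0 v) (by linarith [H.p_half σ v x h])
  have h1 : ∀ y, ∏ v ∈ B, w G ε σ L v y (x :: h) =
      R + (-R) * ∑ v ∈ U, (if y = v then 1 else 0) := by
    intro y
    rw [hsplit]
    have e1 : ∏ v ∈ Fz, w G ε σ L v y (x :: h) = ∏ v ∈ Fz, w G ε σ L v x h := by
      refine Finset.prod_congr rfl fun v hv => ?_
      rw [w, if_pos (Finset.mem_filter.mp hv).2]
    rw [e1]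
    have e3 : ∑ v ∈ U, (if y = v then (1 : ℝ) else 0) = if y ∈ U then 1 else 0 :=
      Finset.sum_ite_eq U y fun _ => (1 : ℝ)
    rw [e3]
    by_cases hy : y ∈ U
    · rw [if_pos hy]
      have : ∏ v ∈ U, w G ε σ L v y (x :: h) = 0 := by
        refine Finset.prod_eq_zero hy ?_
        rw [w, if_neg (Finset.mem_filter.mp hy).2, if_pos rfl]
      rw [this]; ring
    · rw [if_neg hy]
      have : ∏ v ∈ U, w G ε σ L v y (x :: h) =
          ∏ v ∈ U, (w G ε σ L v x h / (1 - p G ε σ v x h)) := by
        refine Finset.prod_congr rfl fun v hv => ?_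
        rw [w, if_neg (Finset.mem_filter.mp hv).2, if_neg]
        rintro rfl
        exact hy hv
      rw [this]; ring
  have h2 : (fun y => ∏ v ∈ B, w G ε σ L v y (x :: h)) =
      fun y => R + (-R) * ∑ v ∈ U, (if y = v then 1 else 0) := funext h1
  rw [h2, A_add, A_const σ (H.ne x), A_mul, A_sum]
  simp_rw [A_ind]
  have h3 : 1 - ∑ v ∈ U, p G ε σ v x h ≤ ∏ v ∈ U, (1 - p G ε σ v x h) :=
    one_sub_sum_le_prod U _ (fun v => p_nonneg σ H.h0 H.h1 v x h)
      fun v => (H.p_half σ v x h).trans (by norm_num)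
  have h4 : R * ∏ v ∈ U, (1 - p G ε σ v x h) = ∏ v ∈ B, w G ε σ L v x h := by
    rw [hsplit, hR, mul_assoc, ← Finset.prod_mul_distrib]
    congr 1
    refine Finset.prod_congr rfl fun v _ => ?_
    have : 1 - p G ε σ v x h ≠ 0 := by linarith [H.p_half σ v x h]
    field_simp
  calc R + -R * ∑ v ∈ U, p G ε σ v x h = R * (1 - ∑ v ∈ U, p G ε σ v x h) := by ring
    _ ≤ R * ∏ v ∈ U, (1 - p G ε σ v x h) := mul_le_mul_of_nonneg_left h3 hR0
    _ = _ := h4

/-! ### Deterministic facts -/

theorem w_visited {L : ℝ} (v : V) : ∀ (h : List V) (x : V),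
    (v = x ∨ v ∈ h) → w G ε σ L v x h = 0 ∨ L ≤ w G ε σ L v x h := by
  intro h
  induction h with
  | nil =>
    intro x hx
    left
    rcases hx with hx | hx
    · unfold w; rw [if_pos hx]
    · simp at hx
  | cons z h ih =>
    intro x hx
    rw [w]
    by_cases h1 : L ≤ w G ε σ L v z h
    · rw [if_pos h1]; exact Or.inr h1
    · rw [if_neg h1]
      rcases hx with hx | hx
      · rw [if_pos hx.symm]; exact Or.inl rfl
      · have h2 : v = z ∨ v ∈ h := by simpa using hx
        rcases ih z h2 with h3 | h3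
        · left
          split_ifs
          · rfl
          · rw [h3, zero_div]
        · exact absurd h3 h1

theorem w_le_exp {L : ℝ} {d : ℕ} (H : Std G ε L d) (v : V) : ∀ (h : List V) (x : V),
    w G ε σ L v x h ≤ Real.exp (2 * K G ε σ v x h) := by
  intro h
  induction h with
  | nil =>
    intro x
    unfold w K
    rw [mul_zero, Real.exp_zero]
    split_ifs <;> norm_num
  | cons z h ih =>
    intro x
    have hp0 := p_nonneg (G := G) σ H.h0 H.h1 v z h
    have hp1 := H.p_half σ v z h
    have hi := ih z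
    have hw := w_bounds σ H v h z
    rw [K, w]
    have h2 : Real.exp (2 * (K G ε σ v z h + p G ε σ v z h)) =
        Real.exp (2 * K G ε σ v z h) * Real.exp (2 * p G ε σ v z h) := by
      rw [← Real.exp_add]; ring_nf
    have h3 : 1 ≤ Real.exp (2 * p G ε σ v z h) := Real.one_le_exp (by linarith)
    have h4 : 0 < Real.exp (2 * K G ε σ v z h) := Real.exp_pos _
    rw [h2]
    split_ifs with a b
    · nlinarith
    · positivity
    · rw [div_le_iff₀ (by linarith)]
      have h5 : 2 * p G ε σ v z h + 1 ≤ Real.exp (2 * p G ε σ v z h) := Real.add_one_le_exp _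
      have h6 : 1 ≤ Real.exp (2 * p G ε σ v z h) * (1 - p G ε σ v z h) := by
        nlinarith [mul_nonneg hp0 (sub_nonneg.mpr hp1)]
      calc w G ε σ L v z h ≤ Real.exp (2 * K G ε σ v z h) * 1 := by rw [mul_one]; exact hi
        _ ≤ Real.exp (2 * K G ε σ v z h) *
            (Real.exp (2 * p G ε σ v z h) * (1 - p G ε σ v z h)) :=
          mul_le_mul_of_nonneg_left h6 h4.le
        _ = _ := by ring

open Classical in
theorem K_sum {L : ℝ} {d : ℕ} (H : Std G ε L d) (D : Finset V) (k : ℕ)
    (hk : ∀ z, (D.filter fun v => v ∈ nb G z).card ≤ k) : ∀ (h : List V) (x : V),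
    ∑ v ∈ D, K G ε σ v x h ≤ h.length * ((k : ℝ) / d + ε) := by
  intro h
  induction h with
  | nil => intro x; simp [K]
  | cons z h ih =>
    intro x
    simp only [K]
    rw [Finset.sum_add_distrib, List.length_cons]
    push_cast
    have h1 : ∑ v ∈ D, p G ε σ v z h ≤ (k : ℝ) / d + ε := by
      unfold p
      rw [Finset.sum_add_distrib, ← Finset.mul_sum, ← Finset.sum_div, ← Finset.mul_sum, H.reg]
      have h2 : ∑ v ∈ D, (if G.Adj z v then (1 : ℝ) else 0) ≤ k := by
        have h3 : ∑ v ∈ D, (if G.Adj z v then (1 : ℝ) else 0) =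
            ((D.filter fun v => v ∈ nb G z).card : ℝ) := by
          rw [Finset.card_filter]
          push_cast
          refine Finset.sum_congr rfl fun v _ => ?_
          unfold nb
          simp
        rw [h3]
        exact_mod_cast hk z
      have h2' : 0 ≤ ∑ v ∈ D, (if G.Adj z v then (1 : ℝ) else 0) :=
        Finset.sum_nonneg fun v _ => by split_ifs <;> norm_num
      have h4 : ∑ v ∈ D, (if σ z h = v then (1 : ℝ) else 0) ≤ 1 := by
        rw [Finset.sum_ite_eq]
        split_ifs <;> norm_num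
      have h5 : (∑ v ∈ D, (if G.Adj z v then (1 : ℝ) else 0)) / (d : ℝ) ≤ (k : ℝ) / d :=
        div_le_div_of_nonneg_right h2 (Nat.cast_nonneg _)
      have h5' : 0 ≤ (∑ v ∈ D, (if G.Adj z v then (1 : ℝ) else 0)) / (d : ℝ) :=
        div_nonneg h2' (Nat.cast_nonneg _)
      have h6 := H.h0
      nlinarith
    have := ih z
    linarith

end

end Pool.Agent.Q210.BW
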