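import Mathlib
import Pool.Agent.Q210.BW.Walk

/-!
# The probability of covering a regular graph of high degree in linear time
-/

open Finset

namespace Pool.Agent.Q210.BW

noncomputable section

variable {V : Type} [Fintype V] {G : SimpleGraph V} {ε : ℝ} (σ : V → List V → V)

open Classical in
/-- Indicator that all vertices have been visited. -/
def cov (x : V) (h : List V) : ℝ := if ∀ v, v = x ∨ v ∈ h then 1 else 0

open Classical in
theorem pointwise {L : ℝ} {d k : ℕ} (H : Std G ε L d) {n : ℕ} (hn : Fintype.card V = n)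
    (hn4 : 4 ≤ n) (hk : k ≠ 0) {T : ℕ}
    (hT : (T : ℝ) * ((k : ℝ) / d + ε) < Real.log L * n / (16 * L)) (y : V) (l : List V)
    (hl : l.length = T) :
    cov y l ≤ 16 / (n : ℝ) ^ 2 * (∑ v, w G ε σ L v y l - (n - 1)) ^ 2 +
      (8 * L * d / (L ^ k * n)) * ∑ z : V, ∑ B ∈ (nb G z).powersetCard k,
        ∏ v ∈ B, w G ε σ L v y l := by
  have hL := H.L1
  have hL0 : 0 < L := by linarith
  have hn0 : (0 : ℝ) < n := by
    have : 0 < n := by omega
    exact_mod_cast this
  have hn4' : (4 : ℝ) ≤ n := by exact_mod_cast hn4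
  have hd0 : (0 : ℝ) < d := by
    have := H.dpos
    exact_mod_cast Nat.pos_of_ne_zero this
  have hw0 : ∀ v, 0 ≤ w G ε σ L v y l := fun v => (w_bounds σ H v l y).1
  have hQ0 : ∀ z, 0 ≤ ∑ B ∈ (nb G z).powersetCard k, ∏ v ∈ B, w G ε σ L v y l := fun z =>
    Finset.sum_nonneg fun B _ => Finset.prod_nonneg fun v _ => hw0 v
  have hQS0 : 0 ≤ ∑ z : V, ∑ B ∈ (nb G z).powersetCard k, ∏ v ∈ B, w G ε σ L v y l :=
    Finset.sum_nonneg fun z _ => hQ0 z
  have hb0 : 0 ≤ 8 * L * d / (L ^ k * n) := by positivity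
  have ht1 : 0 ≤ 16 / (n : ℝ) ^ 2 * (∑ v, w G ε σ L v y l - (n - 1)) ^ 2 := by positivity
  have ht2 := mul_nonneg hb0 hQS0
  unfold cov
  by_cases hc : ∀ v, v = y ∨ v ∈ l
  swap
  · rw [if_neg hc]; linarith
  rw [if_pos hc]
  set S := ∑ v, w G ε σ L v y l with hS
  by_cases hSn : S < n / 2
  · have h1 : (n : ℝ) / 4 ≤ (n - 1) - S := by linarith
    have h2 : (n : ℝ) ^ 2 / 16 ≤ (S - (n - 1)) ^ 2 := by nlinarith
    have h3 : 1 ≤ 16 / (n : ℝ) ^ 2 * (S - (n - 1)) ^ 2 := by
      calc (1 : ℝ) = 16 / (n : ℝ) ^ 2 * ((n : ℝ) ^ 2 / 16) := by field_simp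
        _ ≤ _ := mul_le_mul_of_nonneg_left h2 (by positivity)
    linarith
  · push Not at hSn
    set D : Finset V := Finset.univ.filter fun v => L ≤ w G ε σ L v y l with hD
    have hSD : S ≤ D.card * (2 * L) := by
      have h1 : S = ∑ v ∈ D, w G ε σ L v y l := by
        rw [hS, hD, Finset.sum_filter]
        refine Finset.sum_congr rfl fun v _ => ?_
        split_ifs with h2
        · rfl
        · rcases w_visited (G := G) (ε := ε) σ (L := L) v l y (hc v) with h3 | h3
          · exact h3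
          · exact absurd h3 h2
      rw [h1, ← nsmul_eq_mul]
      exact Finset.sum_le_card_nsmul _ _ _ fun v _ => (w_bounds σ H v l y).2
    have hDn : (n : ℝ) / (4 * L) ≤ D.card := by
      rw [div_le_iff₀ (by positivity)]
      linarith
    set Exc : Finset V := Finset.univ.filter fun z => k ≤ (D.filter fun v => v ∈ nb G z).card
      with hExc
    set D' : Finset V := D.filter fun v => v ∉ Exc.biUnion fun z => nb G z with hD'
    have hD'k : ∀ z, (D'.filter fun v => v ∈ nb G z).card ≤ k := by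
      intro z
      by_cases hz : z ∈ Exc
      · have : (D'.filter fun v => v ∈ nb G z) = ∅ := by
          rw [Finset.filter_eq_empty_iff]
          intro v hv hvz
          exact (Finset.mem_filter.mp hv).2 (Finset.mem_biUnion.mpr ⟨z, hz, hvz⟩)
        rw [this]; simp
      · have h1 : ¬ k ≤ (D.filter fun v => v ∈ nb G z).card := by
          intro h2
          exact hz (Finset.mem_filter.mpr ⟨Finset.mem_univ _, h2⟩)
        have h2 : (D'.filter fun v => v ∈ nb G z).card ≤ (D.filter fun v => v ∈ nb G z).card :=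
          Finset.card_le_card (Finset.filter_subset_filter _ (Finset.filter_subset _ _))
        omega
    have hD'card : (D.card : ℝ) - d * Exc.card ≤ D'.card := by
      have h1 : D.card ≤ D'.card + (Exc.biUnion fun z => nb G z).card := by
        have h2 : D ⊆ D' ∪ Exc.biUnion fun z => nb G z := by
          intro v hv
          by_cases h3 : v ∈ Exc.biUnion fun z => nb G z
          · exact Finset.mem_union_right _ h3
          · exact Finset.mem_union_left _ (Finset.mem_filter.mpr ⟨hv, h3⟩)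
        exact (Finset.card_le_card h2).trans (Finset.card_union_le _ _)
      have h2 : (Exc.biUnion fun z => nb G z).card ≤ Exc.card * d :=
        Finset.card_biUnion_le_card_mul _ _ _ fun z _ => (H.reg z).le
      have h3 : D.card ≤ D'.card + Exc.card * d := h1.trans (by omega)
      have h4 : (D.card : ℝ) ≤ D'.card + Exc.card * d := by exact_mod_cast h3
      linarith
    by_cases hE : (d : ℝ) * Exc.card ≤ n / (8 * L)
    · exfalso
      have h1 : (n : ℝ) / (8 * L) ≤ D'.card := by
        have : (n : ℝ) / (4 * L) = n / (8 * L) + n / (8 * L) := by field_simp; norm_num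
        linarith
      have h2 : ∀ v ∈ D', Real.log L / 2 ≤ K G ε σ v y l := by
        intro v hv
        have h3 : L ≤ w G ε σ L v y l :=
          (Finset.mem_filter.mp (Finset.mem_filter.mp hv).1).2
        have h4 := h3.trans (w_le_exp σ H v l y)
        have h5 : Real.log L ≤ 2 * K G ε σ v y l := (Real.log_le_iff_le_exp hL0).mpr h4
        linarith
      have h3 := K_sum σ H D' k hD'k l y
      have h4 : (D'.card : ℝ) * (Real.log L / 2) ≤ ∑ v ∈ D', K G ε σ v y l := by
        rw [← nsmul_eq_mul]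
        exact Finset.card_nsmul_le_sum _ _ _ h2
      rw [hl] at h3
      have h5 : 0 ≤ Real.log L := Real.log_nonneg hL
      have h6 : (n : ℝ) / (8 * L) * (Real.log L / 2) ≤ D'.card * (Real.log L / 2) :=
        mul_le_mul_of_nonneg_right h1 (by linarith)
      have h7 : (n : ℝ) / (8 * L) * (Real.log L / 2) = Real.log L * n / (16 * L) := by
        field_simp; ring
      linarith
    · push Not at hE
      have h1 : ∀ z ∈ Exc, L ^ k ≤ ∑ B ∈ (nb G z).powersetCard k, ∏ v ∈ B, w G ε σ L v y l := by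
        intro z hz
        have h2 : k ≤ (D.filter fun v => v ∈ nb G z).card := (Finset.mem_filter.mp hz).2
        obtain ⟨B, hB, hBk⟩ := Finset.exists_subset_card_eq h2
        have h3 : B ∈ (nb G z).powersetCard k := by
          rw [Finset.mem_powersetCard]
          exact ⟨fun v hv => (Finset.mem_filter.mp (hB hv)).2, hBk⟩
        have h4 : L ^ k ≤ ∏ v ∈ B, w G ε σ L v y l := by
          rw [← hBk, ← Finset.prod_const]
          refine Finset.prod_le_prod (fun _ _ => hL0.le) fun v hv => ?_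
          exact (Finset.mem_filter.mp (Finset.mem_filter.mp (hB hv)).1).2
        exact h4.trans (Finset.single_le_sum (f := fun B => ∏ v ∈ B, w G ε σ L v y l)
          (fun B _ => Finset.prod_nonneg fun v _ => hw0 v) h3)
      have h2 : (Exc.card : ℝ) * L ^ k ≤ ∑ z : V, ∑ B ∈ (nb G z).powersetCard k,
          ∏ v ∈ B, w G ε σ L v y l := by
        calc (Exc.card : ℝ) * L ^ k ≤ ∑ z ∈ Exc, ∑ B ∈ (nb G z).powersetCard k,
            ∏ v ∈ B, w G ε σ L v y l := by
              rw [← nsmul_eq_mul]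
              exact Finset.card_nsmul_le_sum _ _ _ h1
          _ ≤ _ := Finset.sum_le_sum_of_subset_of_nonneg (Finset.subset_univ _)
              fun z _ _ => hQ0 z
      have h3 : 1 ≤ 8 * L * d / (L ^ k * n) * ((Exc.card : ℝ) * L ^ k) := by
        have h4 : 8 * L * d / (L ^ k * n) * ((Exc.card : ℝ) * L ^ k) =
            8 * L * (d * Exc.card) / n := by field_simp
        rw [h4, le_div_iff₀ hn0]
        rw [div_lt_iff₀ (by positivity)] at hE
        linarith
      have h5 := mul_le_mul_of_nonneg_left h2 hb0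
      linarith

/-- Bound for the probability of having covered the graph after `T` steps. -/
theorem prob_cov {L : ℝ} {d k : ℕ} (H : Std G ε L d) {n : ℕ} (hn : Fintype.card V = n)
    (hn4 : 4 ≤ n) (hk : k ≠ 0) {T : ℕ}
    (hT : (T : ℝ) * ((k : ℝ) / d + ε) < Real.log L * n / (16 * L)) (x : V) :
    Ex G ε σ cov T x [] ≤ 64 * L ^ 2 * T / (n : ℝ) ^ 2 + 8 * L * d * (d.choose k) / L ^ k := by
  classical
  have hL := H.L1
  have hL0 : 0 < L := by linarith
  have hn0 : (0 : ℝ) < n := by
    have : 0 < n := by omega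
    exact_mod_cast this
  set a : ℝ := 16 / (n : ℝ) ^ 2 with ha
  set b : ℝ := 8 * L * d / (L ^ k * n) with hb
  have h1 : Ex G ε σ cov T x [] ≤ Ex G ε σ (fun y l =>
      a * (∑ v, w G ε σ L v y l - (n - 1)) ^ 2 + b * ∑ z : V, ∑ B ∈ (nb G z).powersetCard k,
        ∏ v ∈ B, w G ε σ L v y l) T x [] := by
    refine Ex_mono σ H.h0 H.h1 T x [] fun y l hl => ?_
    exact pointwise σ H hn hn4 hk hT y l (by simpa using hl)
  rw [Ex_add, Ex_mul, Ex_mul] at h1
  have h2 := Ex_le σ H.h0 H.h1 H.ne (f := fun y l => (∑ v, w G ε σ L v y l - ((n : ℝ) - 1)) ^ 2)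
    (c := 4 * L ^ 2) (fun x h => sq_drift σ H _ x h) T x []
  have h3 := Ex_le σ H.h0 H.h1 H.ne (f := fun y l => ∑ z : V, ∑ B ∈ (nb G z).powersetCard k,
        ∏ v ∈ B, w G ε σ L v y l) (c := 0) (fun x h => ?_) T x []
  swap
  · rw [A_sum, add_zero]
    refine Finset.sum_le_sum fun z _ => ?_
    rw [A_sum]
    exact Finset.sum_le_sum fun B _ => prod_drift σ H B x h
  have hS0 : ∑ v, w G ε σ L v x [] = n - 1 := by
    simp only [w]
    have h4 : ∀ v : V, (if v = x then (0 : ℝ) else 1) = 1 - if v = x then 1 else 0 := by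
      intro v; split_ifs <;> norm_num
    simp_rw [h4]
    rw [Finset.sum_sub_distrib, Finset.sum_ite_eq' Finset.univ x]
    simp [hn]
  rw [hS0, sub_self] at h2
  have hQ : ∑ z : V, ∑ B ∈ (nb G z).powersetCard k, ∏ v ∈ B, w G ε σ L v x [] ≤
      n * (d.choose k) := by
    have h5 : ∀ z : V, ∑ B ∈ (nb G z).powersetCard k, ∏ v ∈ B, w G ε σ L v x [] ≤
        (d.choose k : ℝ) := by
      intro z
      have h6 : ∀ B ∈ (nb G z).powersetCard k, ∏ v ∈ B, w G ε σ L v x [] ≤ 1 := by
        intro B _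
        refine Finset.prod_le_one (fun v _ => (w_bounds σ H v [] x).1) fun v _ => ?_
        unfold w
        split_ifs <;> norm_num
      calc ∑ B ∈ (nb G z).powersetCard k, ∏ v ∈ B, w G ε σ L v x [] ≤
          ((nb G z).powersetCard k).card • (1 : ℝ) := Finset.sum_le_card_nsmul _ _ _ h6
        _ = (d.choose k : ℝ) := by
          rw [Finset.card_powersetCard, H.reg]; simp
    calc ∑ z : V, ∑ B ∈ (nb G z).powersetCard k, ∏ v ∈ B, w G ε σ L v x [] ≤
        (Finset.univ : Finset V).card • (d.choose k : ℝ) :=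
          Finset.sum_le_card_nsmul _ _ _ fun z _ => h5 z
      _ = n * (d.choose k) := by rw [Finset.card_univ, hn, nsmul_eq_mul]
  have ha0 : 0 ≤ a := by positivity
  have hb0 : 0 ≤ b := by positivity
  have e1 : a * (0 ^ 2 + T * (4 * L ^ 2)) = 64 * L ^ 2 * T / (n : ℝ) ^ 2 := by
    rw [ha]; field_simp; ring
  have e2 : b * (n * (d.choose k)) = 8 * L * d * (d.choose k) / L ^ k := by
    rw [hb]; field_simp
  calc Ex G ε σ cov T x [] ≤ _ := h1
    _ ≤ a * (0 ^ 2 + T * (4 * L ^ 2)) + b * (n * (d.choose k)) := by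
        refine add_le_add (mul_le_mul_of_nonneg_left h2 ha0) (mul_le_mul_of_nonneg_left ?_ hb0)
        rw [mul_zero, add_zero] at h3
        exact h3.trans hQ
    _ = _ := by rw [e1, e2]

theorem choose_bound {d k : ℕ} (hk : k ≠ 0) {L : ℝ} (hL : 0 < L)
    (h : 3 * Real.exp 1 * d / L ≤ k) : (d.choose k : ℝ) / L ^ k ≤ Real.exp (-(k : ℝ)) := by
  have hk0 : (0 : ℝ) < k := by exact_mod_cast Nat.pos_of_ne_zero hk
  have h1 : (d.choose k : ℝ) ≤ (d : ℝ) ^ k / k.factorial := Nat.choose_le_pow_div k d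
  have h2 : (k : ℝ) ^ k / k.factorial ≤ Real.exp k := Real.pow_div_factorial_le_exp k hk0.le k
  have hf : (0 : ℝ) < k.factorial := by exact_mod_cast k.factorial_pos
  have h3 : (1 : ℝ) / k.factorial ≤ Real.exp k / (k : ℝ) ^ k := by
    rw [div_le_div_iff₀ hf (by positivity)]
    rw [div_le_iff₀ hf] at h2
    linarith
  have h4 : (d.choose k : ℝ) / L ^ k ≤ (Real.exp 1 * d / (k * L)) ^ k := by
    calc (d.choose k : ℝ) / L ^ k ≤ ((d : ℝ) ^ k / k.factorial) / L ^ k :=
          div_le_div_of_nonneg_right h1 (by positivity)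
      _ = ((d : ℝ) ^ k / L ^ k) * (1 / k.factorial) := by ring
      _ ≤ ((d : ℝ) ^ k / L ^ k) * (Real.exp k / (k : ℝ) ^ k) :=
          mul_le_mul_of_nonneg_left h3 (by positivity)
      _ = (Real.exp 1 * d / (k * L)) ^ k := by
          rw [div_pow, mul_pow, mul_pow, ← Real.exp_nat_mul, mul_one]
          field_simp
  refine h4.trans ?_
  have h5 : Real.exp 1 * d / (k * L) ≤ Real.exp (-1) := by
    rw [div_le_iff₀ (by positivity)]
    rw [div_le_iff₀ hL] at h
    have h6 : 1 ≤ 3 * Real.exp (-1) := by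
      rw [Real.exp_neg]
      have : Real.exp 1 < 3 := Real.exp_one_lt_three
      rw [← div_eq_mul_inv, le_div_iff₀ (Real.exp_pos 1)]
      linarith
    have h7 : 0 ≤ Real.exp 1 * d := by positivity
    have h8 : Real.exp (-1) * (3 * Real.exp 1 * d) ≤ Real.exp (-1) * (k * L) :=
      mul_le_mul_of_nonneg_left h (Real.exp_pos _).le
    nlinarith
  calc (Real.exp 1 * d / (k * L)) ^ k ≤ Real.exp (-1) ^ k :=
        pow_le_pow_left₀ (by positivity) h5 k
    _ = Real.exp (-(k : ℝ)) := by rw [← Real.exp_nat_mul]; ring_nf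

end

end Pool.Agent.Q210.BW
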